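import Pool.Agent.H38.Lra.Red

/-!
Low-rank approximation in the entrywise zero norm is hard for the existential theory of the reals,
already for rank bound three.
-/

namespace Pool.Agent.Results.MP_d82c50_lc.Zero

open Pool.Agent.H38.NP Pool.Agent.H38.ER Pool.Agent.H38.Lra

theorem result : ERHardOn (fun p => Inst p ∧ p.2.2.2.1.val = 3) LRA0 := lra_erh.hardOn

end Pool.Agent.Results.MP_d82c50_lc.Zero
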